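import Mathlib

/-! A finite inverse semigroup of knit degree two. -/

namespace Pool.Agent.Results.MP_90db2d_al.KnitDegreeTwo

/-- Inverse semigroups: every `x` has exactly one `y` with `xyx = x` and `yxy = y`. -/
def IsInverse (S : Type*) [Semigroup S] : Prop :=
  ∀ x : S, ∃! y : S, x * y * x = x ∧ y * x * y = y

/-- Membership in the center. -/
def Central {S : Type*} [Semigroup S] (x : S) : Prop := ∀ y : S, x * y = y * x

/-- The commuting graph: the vertices are the non-central elements, and two distinct vertices are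
adjacent exactly when they commute. -/
def commGraph (S : Type*) [Semigroup S] : SimpleGraph {x : S // ¬ Central x} where
  Adj x y := x ≠ y ∧ x.val * y.val = y.val * x.val
  symm := ⟨fun _ _ h => ⟨h.1.symm, h.2.symm⟩⟩
  loopless := ⟨fun _ h => h.1 rfl⟩

/-- The walk `x₁ - ⋯ - xₙ` is a left path: a path with `x₁ ≠ xₙ` and `x₁ xᵢ = xₙ xᵢ` for
all `i`. -/
def IsLeftPath {S : Type*} [Semigroup S] {u v : {x : S // ¬ Central x}}
    (p : (commGraph S).Walk u v) : Prop :=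
  p.IsPath ∧ u ≠ v ∧ ∀ x ∈ p.support, u.val * x.val = v.val * x.val

/-- The set of lengths of left paths. -/
def leftLengths (S : Type*) [Semigroup S] : Set ℕ :=
  {n | ∃ (u v : {x : S // ¬ Central x}) (p : (commGraph S).Walk u v), IsLeftPath p ∧ p.length = n}

/-- The knit degree, meaningful when there is a left path. -/
noncomputable def knitDegree (S : Type*) [Semigroup S] : ℕ := sInf (leftLengths S)

/-- the underlying set of the example -/
def Q : Type := Fin 16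

instance : DecidableEq Q := inferInstanceAs (DecidableEq (Fin 16))
instance : Fintype Q := inferInstanceAs (Fintype (Fin 16))

/-- the multiplication table -/
def tab : List (List (Fin 16)) :=
  [[0, 1, 2, 1, 2, 0, 2, 2, 0, 0, 1, 0, 0, 1, 1, 2], [1, 2, 0, 2, 0, 1, 0, 0, 1, 1, 2, 1, 1, 2, 2, 0],
   [2, 0, 1, 0, 1, 2, 1, 1, 2, 2, 0, 2, 2, 0, 0, 1], [1, 2, 0, 2, 0, 1, 0, 0, 1, 1, 2, 3, 3, 4, 4, 5],
   [2, 0, 1, 0, 1, 2, 3, 3, 4, 4, 5, 2, 4, 0, 5, 1], [0, 1, 2, 3, 4, 5, 2, 4, 0, 5, 1, 0, 0, 1, 1, 2],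
   [2, 0, 1, 0, 1, 2, 1, 1, 2, 2, 0, 6, 6, 8, 8, 10], [2, 0, 1, 0, 1, 2, 3, 3, 4, 4, 5, 6, 7, 8, 9, 10],
   [0, 1, 2, 1, 2, 0, 6, 6, 8, 8, 10, 0, 8, 1, 10, 2], [0, 1, 2, 3, 4, 5, 6, 7, 8, 9, 10, 0, 8, 1, 10, 2],
   [1, 2, 0, 6, 8, 10, 0, 8, 1, 10, 2, 1, 1, 2, 2, 0], [0, 1, 2, 1, 2, 0, 2, 2, 0, 0, 1, 11, 11, 13, 13, 15],
   [0, 1, 2, 1, 2, 0, 6, 6, 8, 8, 10, 11, 12, 13, 14, 15], [1, 2, 0, 2, 0, 1, 11, 11, 13, 13, 15, 1, 13, 2, 15, 0],
   [1, 2, 0, 6, 8, 10, 11, 12, 13, 14, 15, 1, 13, 2, 15, 0], [2, 0, 1, 11, 13, 15, 1, 13, 2, 15, 0, 2, 2, 0, 0, 1]]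

/-- the multiplication -/
def mulQ (a b : Q) : Q := (tab.getD (Fin.val a) []).getD (Fin.val b) 0

theorem assocQ : ∀ a b c : Q, mulQ (mulQ a b) c = mulQ a (mulQ b c) := by
  decide +kernel

instance : Semigroup Q where
  mul := mulQ
  mul_assoc := assocQ

theorem inv1 : ∀ x : Q, ∃ y : Q, (mulQ (mulQ x y) x = x ∧ mulQ (mulQ y x) y = y) ∧
    ∀ z : Q, mulQ (mulQ x z) x = x ∧ mulQ (mulQ z x) z = z → z = y := by
  decide +kernel

theorem isInverse : IsInverse Q := fun x => inv1 x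

instance (x : Q) : Decidable (Central x) :=
  inferInstanceAs (Decidable (∀ y : Q, mulQ x y = mulQ y x))

/-- elements of the example -/
def el (i : Fin 16) : Q := i

theorem noShort : ∀ a b : Q, ¬ (¬ Central a ∧ ¬ Central b ∧ a ≠ b ∧ mulQ a b = mulQ b a ∧
    mulQ a a = mulQ b a ∧ mulQ a b = mulQ b b) := by
  decide +kernel

theorem two_le {n : ℕ} (hn : n ∈ leftLengths Q) : 2 ≤ n := by
  obtain ⟨u, v, p, ⟨hp, huv, hs⟩, rfl⟩ := hn
  cases p with
  | nil => exact absurd rfl huv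
  | cons h q =>
    cases q with
    | nil =>
      exfalso
      apply noShort u.val v.val
      refine ⟨u.2, v.2, fun e => huv (Subtype.ext e), h.2, hs u (by simp), hs v (by simp)⟩
    | cons h' q' => simp only [SimpleGraph.Walk.length_cons]; omega

theorem two_mem : 2 ∈ leftLengths Q := by
  have e43 : el 4 ≠ el 3 := by decide +kernel
  have e37 : el 3 ≠ el 7 := by decide +kernel
  have e47 : el 4 ≠ el 7 := by decide +kernel
  have h4 : ¬ Central (el 4) := by decide +kernel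
  have h3 : ¬ Central (el 3) := by decide +kernel
  have h7 : ¬ Central (el 7) := by decide +kernel
  have a1 : (commGraph Q).Adj ⟨el 4, h4⟩ ⟨el 3, h3⟩ :=
    ⟨fun e => e43 (congrArg Subtype.val e),
      show mulQ (el 4) (el 3) = mulQ (el 3) (el 4) by decide +kernel⟩
  have a2 : (commGraph Q).Adj ⟨el 3, h3⟩ ⟨el 7, h7⟩ :=
    ⟨fun e => e37 (congrArg Subtype.val e),
      show mulQ (el 3) (el 7) = mulQ (el 7) (el 3) by decide +kernel⟩
  have n1 : (⟨el 4, h4⟩ : {x : Q // ¬ Central x}) ≠ ⟨el 7, h7⟩ :=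
    fun e => e47 (congrArg Subtype.val e)
  have n2 : (⟨el 4, h4⟩ : {x : Q // ¬ Central x}) ≠ ⟨el 3, h3⟩ := a1.1
  have n3 : (⟨el 3, h3⟩ : {x : Q // ¬ Central x}) ≠ ⟨el 7, h7⟩ := a2.1
  refine ⟨⟨el 4, h4⟩, ⟨el 7, h7⟩, .cons a1 (.cons a2 .nil), ⟨?_, n1, ?_⟩, rfl⟩
  · rw [SimpleGraph.Walk.isPath_def]
    simp only [SimpleGraph.Walk.support_cons, SimpleGraph.Walk.support_nil, List.nodup_cons,
      List.mem_cons, List.not_mem_nil, or_false, not_or, not_false_eq_true, List.nodup_nil,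
      and_true]
    exact ⟨⟨n2, n1⟩, n3⟩
  · intro x hx
    simp only [SimpleGraph.Walk.support_cons, SimpleGraph.Walk.support_nil, List.mem_cons,
      List.not_mem_nil, or_false] at hx
    rcases hx with rfl | rfl | rfl
    · show mulQ (el 4) (el 4) = mulQ (el 7) (el 4)
      decide +kernel
    · show mulQ (el 4) (el 3) = mulQ (el 7) (el 3)
      decide +kernel
    · show mulQ (el 4) (el 7) = mulQ (el 7) (el 7)
      decide +kernel

theorem knit : knitDegree Q = 2 :=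
  le_antisymm (Nat.sInf_le two_mem) (le_csInf ⟨2, two_mem⟩ fun _ h => two_le h)

/-- There is a finite non-commutative inverse semigroup with a left path, of knit degree `2`. -/
theorem result : ∃ (S : Type) (_ : Semigroup S), Finite S ∧ (∃ x y : S, x * y ≠ y * x) ∧
    IsInverse S ∧ (leftLengths S).Nonempty ∧ knitDegree S = 2 := by
  refine ⟨Q, inferInstance, inferInstance, ⟨el 3, el 11, ?_⟩, isInverse, ⟨2, two_mem⟩, knit⟩
  show mulQ (el 3) (el 11) ≠ mulQ (el 11) (el 3)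
  decide +kernel

end Pool.Agent.Results.MP_90db2d_al.KnitDegreeTwo
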